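import Mathlib
import Pool.Agent.Q23.GD.Core
import Pool.Agent.TH456.TM.E

/-!
# Good scales for the digits of all polynomials in `π` and an arbitrary real number

Let `z = π`, and let `t` be a real number, for instance `ζ(3) / π ^ 3` or Euler's constant. For `t = ζ(3) / π ^ 3` the numbers
`ζ(3)` and `ζ(3) / π ^ 3` are the values at `(z, t)` of the polynomials `x ^ 3 y` and `y`.

The linear complexity of the first `L` digits of a number in base `g` is the least order of a linear recurrence which they
satisfy. It is bounded for a rational number. An irrational number has in each base infinitely many `L` for which it is at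
least `L / 2`, but these `L` depend on the number and on the base. We show that for every `D` there are `κ > 0` and an
unbounded set `G` of scales `Λ` such that for `Λ ∈ G` ALL the irrational numbers `P(z, t)`, `P` an integer polynomial of degree
at most `D` in each variable with coefficients at most `e^(κ Λ)`, have in ALL the bases `g ≤ e^(κ Λ)` first `L` digits
with linear complexity at least `κ Λ / log g`, as soon as `g ^ L ≥ e^Λ`. If `z` and `t` are algebraically dependent, with a
relation of degree at most `D` in each variable, all the large `Λ` are in `G`. At every large scale there is at most one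
exceptional irreducible curve.

The proof: a short recurrence for the digits of `x = P(z, t)` gives a rational number `p / q` very close to `x`
(`Pool/Agent/Q29/DigDir.lean`), hence a small value of the polynomial `q P - p`; at the good scales of
`Pool/Agent/Q29/GoodMain.lean` (which rest on the measures of transcendence of the starting files `TH456`) there are no small
values different from zero.
-/

set_option autoImplicit false

namespace Pool.Agent.Results.MP_e48a95_nt.DigitsAtGoodScales

open Finset Polynomial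

/-- the value `P(z, t)` of a polynomial in two variables; the inner variable `x` is `z`, the outer variable `y` is `t` -/
noncomputable def val (z t : ℝ) (P : ℤ[X][X]) : ℝ := eval₂ (aeval z : ℤ[X] →ₐ[ℤ] ℝ).toRingHom t P

/-- the largest absolute value of a coefficient of a polynomial in two variables -/
noncomputable def height (P : ℤ[X][X]) : ℕ :=
  P.support.sup fun j => (P.coeff j).support.sup fun i => ((P.coeff j).coeff i).natAbs

/-- the integer polynomials in two variables of degree at most `D` in each variable and height at most `H` -/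
def Poly (D : ℕ) (H : ℝ) : Set ℤ[X][X] :=
  {P | P.natDegree ≤ D ∧ (∀ j, (P.coeff j).natDegree ≤ D) ∧ (height P : ℝ) ≤ H}

/-- the irreducible integer polynomials in two variables, of degree at most `D` in each variable, with a
positive leading coefficient -/
def Irr (D : ℕ) : Set ℤ[X][X] :=
  {P | Irreducible P ∧ P.natDegree ≤ D ∧ (∀ j, (P.coeff j).natDegree ≤ D) ∧
    0 < P.leadingCoeff.leadingCoeff}

/-- the `i`-th digit of `x` after the point in base `g` -/
noncomputable def digit (g : ℕ) (x : ℝ) (i : ℕ) : ℤ := ⌊x * (g : ℝ) ^ i⌋ % (g : ℤ)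

/-- the linear complexity of the first `L` digits of `x` in base `g`: the least `m` such that for some
rational numbers `c_0, …, c_(m-1)` one has `s_(i+m) = c_0 s_i + … + c_(m-1) s_(i+m-1)` for
`1 ≤ i ≤ L - m`, where `s_i` is the `i`-th digit -/
noncomputable def complexity (g : ℕ) (x : ℝ) (L : ℕ) : ℕ :=
  sInf {m | ∃ c : ℕ → ℚ, ∀ i : ℕ, 1 ≤ i → i + m ≤ L →
    (digit g x (i + m) : ℚ) = ∑ j ∈ range m, c j * (digit g x (i + j) : ℚ)}

/-- The digits of `x` are complicated at the scale `Λ`: for all bases `2 ≤ g ≤ e^(κ Λ)` and all `L` with `g ^ L ≥ e^Λ`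
the linear complexity of the first `L` digits of `x` in base `g` is at least `κ Λ / log g`. -/
def ComplexAt (κ Λ x : ℝ) : Prop :=
  ∀ g : ℕ, 2 ≤ g → (g : ℝ) ≤ Real.exp (κ * Λ) → ∀ L : ℕ, Λ ≤ L * Real.log g →
    κ * (Λ / Real.log g) ≤ complexity g x L

/-- `ζ(3)` -/
noncomputable def zeta3 : ℝ := ∑' n : ℕ, 1 / ((n : ℝ) + 1) ^ 3

/-- **Good scales for digits.** Let `z = π`. For every `D ≥ 1` there is `κ > 0` such that: (1) for each `T` and all
`Λ ≥ Λ₀(T)`, `|t| ≤ T` there is one irreducible polynomial `Q` of positive degree in `y` such that `P(z, t)` has complicated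
digits at the scale `Λ` for all polynomials `P` of degree at most `D` in each variable and height at most `e^(κ Λ)` for
which `Q` divides no polynomial `q P - p`, `q ≥ 1` and `p` integers; (2) for every real `t` there is an unbounded set `G`
of scales `Λ` at which all irrational values `P(z, t)`, `P` of degree at most `D` in each variable and height at most
`e^(κ Λ)`, have complicated digits; if `z` and `t` satisfy an algebraic relation of degree at most `D` in each variable,
`G` contains all large `Λ`. (3) `ζ(3)` and `ζ(3) / π ^ 3` are the values of `x ^ 3 y` and `y` at `(π, ζ(3) / π ^ 3)`. -/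
theorem result (D : ℕ) (hD : 1 ≤ D) : ∃ κ : ℝ, 0 < κ ∧
    (∀ T : ℝ, ∃ Λ₀ : ℝ, ∀ Λ : ℝ, Λ₀ ≤ Λ → ∀ t : ℝ, |t| ≤ T → ∃ Q ∈ Irr D, 0 < Q.natDegree ∧
      ∀ P ∈ Poly D (Real.exp (κ * Λ)), (∀ q : ℕ, 1 ≤ q → ∀ p : ℤ, ¬ Q ∣ C (C (q : ℤ)) * P - C (C p)) →
        ComplexAt κ Λ (val Real.pi t P)) ∧
    (∀ t : ℝ, ∃ G : Set ℝ, (∀ B : ℝ, ∃ Λ ∈ G, B ≤ Λ) ∧
      (∀ Λ ∈ G, ∀ P ∈ Poly D (Real.exp (κ * Λ)), Irrational (val Real.pi t P) →
        ComplexAt κ Λ (val Real.pi t P)) ∧
      ((∃ Q ∈ Irr D, val Real.pi t Q = 0) → ∃ Λ₁ : ℝ, ∀ Λ : ℝ, Λ₁ ≤ Λ → Λ ∈ G)) ∧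
    (val Real.pi (zeta3 / Real.pi ^ 3) (C (X ^ 3) * X) = zeta3 ∧
      val Real.pi (zeta3 / Real.pi ^ 3) X = zeta3 / Real.pi ^ 3) := by
  obtain ⟨κ, hκ, h1, h2⟩ := Pool.Agent.Q23.GD.dig_good _ Pool.Agent.TH456.TM.measT_pi D hD
  refine ⟨κ, hκ, ?_, ?_, ?_⟩
  · intro T
    obtain ⟨Λ₀, hΛ₀⟩ := h1 T
    refine ⟨Λ₀, fun Λ hΛ t ht => ?_⟩
    obtain ⟨Q, hQ, hQ0, h3⟩ := hΛ₀ Λ hΛ t ht
    exact ⟨Q, hQ, hQ0, fun P hP hdiv => h3 P hP.1 hP.2.1 hP.2.2 hdiv⟩
  · intro t
    obtain ⟨G, h3, h4, h5⟩ := h2 t
    exact ⟨G, h3, fun Λ hΛ P hP hirr => h4 Λ hΛ P hP.1 hP.2.1 hP.2.2 hirr, h5⟩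
  · unfold val
    have hpi : Real.pi ≠ 0 := Real.pi_ne_zero
    constructor
    · rw [eval₂_mul, eval₂_X, eval₂_C]
      simp
      field_simp
    · rw [eval₂_X]

end Pool.Agent.Results.MP_e48a95_nt.DigitsAtGoodScales
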