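import Pool.Agent.Q23.AQ.Ell
import Pool.Agent.Q23.AQ.Few
import Pool.Agent.Q23.AQ.Gr

/-!
# `2 K(q) ± e^(1 + q)` and more general numbers, for almost all algebraic numbers `q` near `0`

Let `K(z)`, `E(z)` be the complete elliptic integrals (parameter `z = k²`), analytic on the plane slit along `[1, ∞)`; we
have `2 K(0) = 2 E(0) = π`, so that the numbers `2 K(q) ± e^(1 + q)` and `2 E(q) ± e^(1 + q)` are `π ± e` for `q = 0`. For
almost all elements `q` of number fields of bounded degree (in particular for almost all rational numbers) in any compact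
subset of the slit plane, for instance in a disk with centre `0`, and for almost all `n`-tuples of them, inside any given
finite set of such numbers, the numbers `K(q)`, `E(q)`, `e^(f_1(q))`, …, `e^(f_m(q))` satisfy no polynomial relation of
bounded degree and polynomially bounded height, not even an approximate one, and not even relative to arbitrary constants
such as `π` and `e`. Here `f_1, …, f_m` are real polynomials no nontrivial integer combination of which is constant (for
example `m = 1`, `f_1 = z`), or more generally entire functions, real on the real axis, of sufficiently different growth.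
-/

set_option autoImplicit false

open Set Filter Topology NumberField

namespace Pool.Agent.Results.MP_363d4d_nt.EllipticIntegralsAndExponentials

/-- The exceptional `n`-tuples of elements of the finite subset `X` of the number field `F ⊆ ℂ`: there is a polynomial `P`
of degree at most `d` in each variable, with coefficients of the form `∑ ξ_a ι(c_a)`, where the `c_a` are integers of `F`
all of whose conjugates have absolute value at most `T ^ A`, such that the value of `P` at the numbers `f y (ι (q h))` is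
at most `T ^ (-B)` times the absolute value of some nonzero coefficient of `P`. -/
def Exceptional {κ : Type} (f : κ → ℂ → ℂ) (n d : ℕ) {g : ℕ} (F : Type) [Field F] [NumberField F] (ι : F →+* ℂ)
    (ξ : Fin g → ℂ) (X : Finset F) (A B T : ℝ) : Set (Fin n → F) :=
  {q | (∀ h, q h ∈ X) ∧ ∃ P : MvPolynomial (Fin n × κ) ℂ, (∀ x, P.degreeOf x ≤ d) ∧
    (∀ s, ∃ c : Fin g → 𝓞 F, (∀ a (φ : F →+* ℂ), ‖φ (c a)‖ ≤ T ^ A) ∧ P.coeff s = ∑ a, ξ a * ι (c a)) ∧
    ∃ s₀, P.coeff s₀ ≠ 0 ∧ ‖MvPolynomial.aeval (fun x : Fin n × κ => f x.2 (ι (q x.1))) P‖ ≤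
      T ^ (-B) * ‖P.coeff s₀‖}

/-- For every compact subset `K` of `U` and all `m`, `n`, `g`, `d`, `A` and `ε > 0` there are `B`, `C`, `T₀` such that for
every number field `F` of degree at most `m`, every embedding `ι` of `F` in `ℂ`, all complex numbers `ξ_1, …, ξ_g`, all
`T ≥ T₀` and every finite set `X` of elements of `F` with images in `K` which are quotients of two integers of `F` all of
whose conjugates have absolute value at most `T`, the number of exceptional `n`-tuples of `X ^ n` is at most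
`C T^ε |X|^(n - 1)`. -/
def FewExceptions {κ : Type} (U : Set ℂ) (f : κ → ℂ → ℂ) : Prop :=
  ∀ (K : Set ℂ), IsCompact K → K ⊆ U → ∀ (m n g d : ℕ) (A ε : ℝ), 0 < ε →
    ∃ B C T₀ : ℝ, ∀ (F : Type) [Field F] [NumberField F], Module.finrank ℚ F ≤ m → ∀ (ι : F →+* ℂ) (ξ : Fin g → ℂ)
      (T : ℝ), T₀ ≤ T → ∀ X : Finset F,
        (∀ x ∈ X, ι x ∈ K ∧ ∃ a b : 𝓞 F, b ≠ 0 ∧ (∀ φ : F →+* ℂ, ‖φ a‖ ≤ T ∧ ‖φ b‖ ≤ T) ∧ x = a / b) →
        ((Exceptional f n d F ι ξ X A B T).ncard : ℝ) ≤ C * T ^ ε * (X.card : ℝ) ^ (n - 1)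

/-- The plane slit along `[1, ∞)`. -/
def slit : Set ℂ := {z | 1 - z ∈ Complex.slitPlane}

/-- The complete elliptic integral of the first kind, `∫_0^{π/2} (1 - z sin²θ)^(-1/2) dθ` (principal branch). -/
noncomputable def ellK (z : ℂ) : ℂ := ∫ θ in (0 : ℝ)..(Real.pi / 2), (1 - z * (Real.sin θ : ℂ) ^ 2) ^ (-(1 / 2) : ℂ)

/-- The complete elliptic integral of the second kind, `∫_0^{π/2} (1 - z sin²θ)^(1/2) dθ` (principal branch). -/
noncomputable def ellE (z : ℂ) : ℂ := ∫ θ in (0 : ℝ)..(Real.pi / 2), (1 - z * (Real.sin θ : ℂ) ^ 2) ^ ((1 / 2) : ℂ)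

/-- The functions `K(z)`, `E(z)`, `e^(f_1(z))`, …, `e^(f_m(z))`. -/
noncomputable def fn {m : ℕ} (f : Fin m → ℂ → ℂ) : Fin 2 ⊕ Fin m → ℂ → ℂ
  | Sum.inl i => ![ellK, ellE] i
  | Sum.inr i => fun z => Complex.exp (f i z)

/-- The general criterion. -/
theorem general (m : ℕ) (f : Fin m → ℂ → ℂ) (φ : Fin m → ℝ → ℝ) (hf : ∀ i, Differentiable ℂ (f i))
    (hφ : ∀ i (t : ℝ), f i t = φ i t)
    (h : ∀ (k : Fin m → ℤ) (r : ℤ), k ≠ 0 →
      Tendsto (fun t => ∑ i, (k i : ℝ) * φ i t + r * Real.log t) atTop atTop ∨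
        Tendsto (fun t => ∑ i, (k i : ℝ) * φ i t + r * Real.log t) atTop atBot) : FewExceptions slit (fn f) := by
  intro K hK hKU m' n g d A ε hε
  have hφan : ∀ i t, AnalyticAt ℝ (φ i) t := by
    intro i t
    have h1 : AnalyticAt ℝ (fun t : ℝ => (f i t).re) t := by
      have h2 : AnalyticAt ℝ (f i) (t : ℂ) := ((hf i).analyticAt (t : ℂ)).restrictScalars
      have h3 : AnalyticAt ℝ (fun t : ℝ => (t : ℂ)) t := Complex.ofRealCLM.analyticAt t
      exact (Complex.reCLM.analyticAt _).comp (h2.comp h3)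
    refine h1.congr (Eventually.of_forall fun t => ?_)
    show (f i t).re = φ i t
    rw [hφ, Complex.ofReal_re]
  have hloc := Q23.AQ.ellExp (fun i t => Real.exp (φ i t)) (fun i z => Complex.exp (f i z))
    (fun i => (hf i).cexp) (fun i t => (hφan i t).rexp) (fun i t => by
      show Complex.exp (f i t) = _
      rw [hφ, Complex.ofReal_exp]) (fun d a b hab => Q23.AQ.rindG (d := d) (fun i t => Real.exp (φ i t))
      (fun i => Eventually.of_forall fun t => Real.exp_pos _)
      (fun k r hk => by simpa only [Q23.AQ.Sep, Real.log_exp] using h k r hk) a b hab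
      (fun i t _ => (hφan i t).rexp))
  have hfn : fn f = Sum.elim Q23.AQ.ke (fun i z => Complex.exp (f i z)) := by
    funext y
    rcases y with y | i
    · fin_cases y
      · rfl
      · rfl
    · rfl
  rw [hfn]
  refine Q23.AQ.fewC _ K hK ?_ (fun t ht => hloc t (hKU ht)) m' n g d A ε hε
  rintro (y | i) t ht
  · exact Q23.AQ.ke_an y (hKU ht)
  · exact ((hf i).cexp).analyticAt t

/-- The case of polynomials. -/
theorem polys (m : ℕ) (p : Fin m → Polynomial ℝ)
    (h : ∀ k : Fin m → ℤ, (∑ i, Polynomial.C (k i : ℝ) * p i).natDegree = 0 → k = 0) :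
    FewExceptions slit (fn (fun i z => ((p i).map Complex.ofRealHom).eval z)) := by
  refine general m _ (fun i t => (p i).eval t) (fun i => Polynomial.differentiable _) (fun i t => ?_) ?_
  · rw [show (t : ℂ) = Complex.ofRealHom t from rfl, Polynomial.eval_map_apply]
    rfl
  · intro k r hk
    have h1 := Q23.AQ.poly_sep (∑ i, Polynomial.C (k i : ℝ) * p i) (fun h0 => hk (h k h0)) r
    simpa only [Q23.AQ.Sep, Polynomial.eval_finsetSum, Polynomial.eval_mul, Polynomial.eval_C] using h1

/-- Two assertions: the general criterion and the case of polynomials. -/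
theorem result :
    (∀ (m : ℕ) (f : Fin m → ℂ → ℂ) (φ : Fin m → ℝ → ℝ), (∀ i, Differentiable ℂ (f i)) →
      (∀ i (t : ℝ), f i t = φ i t) →
      (∀ (k : Fin m → ℤ) (r : ℤ), k ≠ 0 →
        Tendsto (fun t => ∑ i, (k i : ℝ) * φ i t + r * Real.log t) atTop atTop ∨
          Tendsto (fun t => ∑ i, (k i : ℝ) * φ i t + r * Real.log t) atTop atBot) → FewExceptions slit (fn f)) ∧
    (∀ (m : ℕ) (p : Fin m → Polynomial ℝ),
      (∀ k : Fin m → ℤ, (∑ i, Polynomial.C (k i : ℝ) * p i).natDegree = 0 → k = 0) →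
      FewExceptions slit (fn (fun i z => ((p i).map Complex.ofRealHom).eval z))) :=
  ⟨general, polys⟩

end Pool.Agent.Results.MP_363d4d_nt.EllipticIntegralsAndExponentials
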