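import Pool.Agent.Q23.AQ.LiC
import Pool.Agent.Q23.AQ.Few
import Pool.Agent.Q23.AQ.Hz

/-!
# Two deformations of `ζ(3)` together with periods of elliptic curves, at almost all algebraic points

The number `ζ(3)` is the value at `t = 1` of the trilogarithm `Li_3(t)` and of the Hurwitz zeta function
`ζ(3, t) = ∑ 1 / (n + t)^3`. For almost all algebraic numbers `t` of `[a, b] ⊆ (0, 1)` of bounded degree (in particular for
almost all rational numbers), and for almost all `n`-tuples of them, inside any given finite set of such numbers, the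
numbers `log t`, `Li_1(t)`, …, `Li_w(t)`, `ψ(t + x_i)`, `ζ(2, t + x_i)`, …, `ζ(s, t + x_i)` (`x_i > 0` different modulo `ℤ`,
for instance `x_1 = 1`, and `ζ(k, t + 1) = ζ(k, t) - t^(-k)`) and the periods `K(λ_j)`, `E(λ_j)`, `K(1 - λ_j)` of the
Legendre curves with parameters `λ_j = (t - α_j) / (γ_j - α_j)` satisfy no polynomial relation of bounded degree and
polynomially bounded height, not even an approximate one, and not even relative to arbitrary constants such as `π`, `ζ(3)`,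
….
-/

set_option autoImplicit false

open Set Filter Topology NumberField

namespace Pool.Agent.Results.MP_48b3e2_nt.PolylogarithmsAndHurwitzZeta

/-- The exceptional `n`-tuples of elements of the finite subset `X` of the number field `F ⊆ ℂ`: there is a polynomial `P`
of degree at most `d` in each variable, with coefficients of the form `∑ ξ_a ι(c_a)`, where the `c_a` are integers of `F`
all of whose conjugates have absolute value at most `T ^ A`, such that the value of `P` at the numbers `f y (ι (q h))` is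
at most `T ^ (-B)` times the absolute value of some nonzero coefficient of `P`. -/
def Exceptional {κ : Type} (f : κ → ℝ → ℝ) (n d : ℕ) {g : ℕ} (F : Type) [Field F] [NumberField F] (ι : F →+* ℂ)
    (ξ : Fin g → ℂ) (X : Finset F) (A B T : ℝ) : Set (Fin n → F) :=
  {q | (∀ h, q h ∈ X) ∧ ∃ P : MvPolynomial (Fin n × κ) ℂ, (∀ x, P.degreeOf x ≤ d) ∧
    (∀ s, ∃ c : Fin g → 𝓞 F, (∀ a (φ : F →+* ℂ), ‖φ (c a)‖ ≤ T ^ A) ∧ P.coeff s = ∑ a, ξ a * ι (c a)) ∧
    ∃ s₀, P.coeff s₀ ≠ 0 ∧ ‖MvPolynomial.aeval (fun x : Fin n × κ => ((f x.2 (ι (q x.1)).re : ℝ) : ℂ)) P‖ ≤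
      T ^ (-B) * ‖P.coeff s₀‖}

/-- For all `m`, `n`, `g`, `d`, `A` and `ε > 0` there are `B`, `C`, `T₀` such that for every number field `F` of degree at
most `m`, every embedding `ι` of `F` in `ℂ`, all complex numbers `ξ_1, …, ξ_g`, all `T ≥ T₀` and every finite set `X` of
elements of `F` whose images are real numbers of `[a, b]` and which are quotients of two integers of `F` all of whose
conjugates have absolute value at most `T`, the number of exceptional `n`-tuples of `X ^ n` is at most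
`C T^ε |X|^(n - 1)`. -/
def FewExceptions {κ : Type} (f : κ → ℝ → ℝ) (a b : ℝ) : Prop :=
  ∀ (m n g d : ℕ) (A ε : ℝ), 0 < ε → ∃ B C T₀ : ℝ, ∀ (F : Type) [Field F] [NumberField F],
    Module.finrank ℚ F ≤ m → ∀ (ι : F →+* ℂ) (ξ : Fin g → ℂ) (T : ℝ), T₀ ≤ T → ∀ X : Finset F,
      (∀ x ∈ X, (∃ t : ℝ, a ≤ t ∧ t ≤ b ∧ ι x = t) ∧
        ∃ a b : 𝓞 F, b ≠ 0 ∧ (∀ φ : F →+* ℂ, ‖φ a‖ ≤ T ∧ ‖φ b‖ ≤ T) ∧ x = a / b) →
      ((Exceptional f n d F ι ξ X A B T).ncard : ℝ) ≤ C * T ^ ε * (X.card : ℝ) ^ (n - 1)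

/-- The complete elliptic integral of the first kind, `K(s) = ∫_0^{π/2} (1 - s sin²θ)^(-1/2) dθ`. -/
noncomputable def K (s : ℝ) : ℝ := ∫ θ in (0 : ℝ)..(Real.pi / 2), 1 / √(1 - s * Real.sin θ ^ 2)

/-- The complete elliptic integral of the second kind, `E(s) = ∫_0^{π/2} (1 - s sin²θ)^(1/2) dθ`. -/
noncomputable def E (s : ℝ) : ℝ := ∫ θ in (0 : ℝ)..(Real.pi / 2), √(1 - s * Real.sin θ ^ 2)

/-- The polylogarithm `Li_k(t) = ∑_{n ≥ 1} t ^ n / n ^ k`. -/
noncomputable def Li (k : ℕ) (t : ℝ) : ℝ := ∑' n : ℕ, t ^ (n + 1) / ((n : ℝ) + 1) ^ k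

/-- The digamma function `Γ'/Γ`. -/
noncomputable def digamma (t : ℝ) : ℝ := deriv Real.Gamma t / Real.Gamma t

/-- The Hurwitz zeta function `ζ(k, t) = ∑_{n ≥ 0} 1 / (n + t) ^ k`. -/
noncomputable def hurwitz (k : ℕ) (t : ℝ) : ℝ := ∑' n : ℕ, 1 / ((n : ℝ) + t) ^ k

/-- The `3 N + r s + w + 1` functions: `K(λ)`, `E(λ)`, `K(1 - λ)` for `λ = (t - α_j) / (γ_j - α_j)`, `j < N`;
`ψ(t + x_i)`, `ζ(2, t + x_i)`, …, `ζ(s, t + x_i)`, `i < r`; `log t`, `Li_1(t)`, …, `Li_w(t)`. -/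
noncomputable def fn {N r s w : ℕ} (α γ : Fin N → ℝ) (x : Fin r → ℝ)
    (z : (Fin N × Fin 3) ⊕ ((Fin r × Fin s) ⊕ Fin (w + 1))) (t : ℝ) : ℝ :=
  match z with
  | Sum.inl (j, i) => ![K ((t - α j) / (γ j - α j)), E ((t - α j) / (γ j - α j)), K (1 - (t - α j) / (γ j - α j))] i
  | Sum.inr (Sum.inl (i, k)) => if (k : ℕ) = 0 then digamma (t + x i) else hurwitz (k + 1) (t + x i)
  | Sum.inr (Sum.inr k) => if (k : ℕ) = 0 then Real.log t else Li k t

/-- Let `α_1 > ⋯ > α_N > 0`, `γ_1 < ⋯ < γ_N < 1`, `0 < a < b < 1`, `α_1 < a`, `b < γ_1`, and let `x_1, …, x_r` be positive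
numbers no two of which differ by an integer. Then there are few exceptions in `[a, b]` for the functions `fn α γ x`. -/
theorem result {N r : ℕ} (s w : ℕ) (α γ : Fin N → ℝ) (hα : StrictAnti α) (hγ : StrictMono γ) (hα0 : ∀ j, 0 < α j)
    (hγ1 : ∀ j, γ j < 1) (x : Fin r → ℝ) (hx : ∀ i j (n : ℤ), x i = x j + n → i = j) (hx0 : ∀ i, 0 < x i)
    (a b : ℝ) (ha : 0 < a) (hab : a < b) (hb : b < 1) (h : ∀ j, α j < a ∧ b < γ j) :
    FewExceptions (fn (s := s) (w := w) α γ x) a b := by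
  intro m n g d A ε hε
  set v : Fin r × Fin s → ℝ → ℝ := Q23.Hz.fn x with hv
  have hvan : ∀ i, ∀ t : ℝ, 0 ≤ t → AnalyticAt ℝ (v i) t := fun i t ht =>
    Q23.Hz.fn_an x i (add_pos_of_nonneg_of_pos ht (hx0 _))
  set u : (Fin r × Fin s) ⊕ Fin (w + 1) → ℝ → ℝ := Sum.elim v (fun k : Fin (w + 1) => TH818.AP.pl (k : ℕ)) with hu
  have huan : ∀ k, ∀ t ∈ Ioo (0 : ℝ) 1, AnalyticAt ℝ (u k) t := by
    rintro (i | k) t ht
    · exact hvan i t ht.1.le
    · simp only [hu, Sum.elim_inr]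
      by_cases hk : (k : ℕ) = 0
      · have : TH818.AP.pl (k : ℕ) = Real.log := by
          funext t
          simp [TH818.AP.pl, hk]
        rw [this]
        exact analyticAt_log ht.1
      · have : TH818.AP.pl (k : ℕ) = TH818.AP.Li k := by
          funext t
          simp [TH818.AP.pl, hk]
        rw [this]
        exact TH818.AP.liAn _ t ⟨by linarith [ht.1], ht.2⟩
  have hind : ∀ d : ℕ, TH818.AP.RIndep (fun (e : ((Fin N × Fin 3) ⊕ ((Fin r × Fin s) ⊕ Fin (w + 1))) → Fin (d + 1))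
      (t : ℝ) => ∏ p, Sum.elim (fun z : Fin N × Fin 3 => TH818.AP.KC (α z.1) (γ z.1) z.2) u p t ^ (e p : ℕ)) a b := by
    intro d
    refine Q23.AQ.comb_leg u 0 1 a b ha.le hab hb.le (fun k t ht => huan k t ht) ?_ α γ hα hγ
      (fun j => (h j).1.trans (hab.trans (h j).2)) hα0 hγ1 (fun j => ⟨(h j).1.le, (h j).2.le⟩)
    refine Q23.AQ.comb_li v a b ha hab hb (fun i t ht => hvan i t ht.1) ?_
    intro a' b' ha' hab' _
    exact Q23.Hz.fn_ind r s d x hx a' b' hab' (fun i => by linarith [hx0 i])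
  have hfn : fn (s := s) (w := w) α γ x = Sum.elim (fun z : Fin N × Fin 3 => TH818.AP.KC (α z.1) (γ z.1) z.2) u := by
    funext z t
    rcases z with ⟨j, i⟩ | ⟨i, k⟩ | k
    · have hne : γ j - α j ≠ 0 := by linarith [(h j).1, (h j).2]
      fin_cases i
      · rfl
      · rfl
      · show K (1 - (t - α j) / (γ j - α j)) = TH818.AR.KK ((γ j - t) / (γ j - α j))
        have : 1 - (t - α j) / (γ j - α j) = (γ j - t) / (γ j - α j) := by
          field_simp
          ring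
        rw [this]
        rfl
    · rfl
    · rfl
  rw [hfn]
  refine Q23.AQ.fewR _ a b ?_ hind m n g d A ε hε
  rintro (z | k) t ht
  · exact TH818.AP.kc_an _ _ ((h z.1).1.trans (hab.trans (h z.1).2)) z.2 t ((h z.1).1.trans_le ht.1)
      (lt_of_le_of_lt ht.2 (h z.1).2)
  · exact huan k t ⟨ha.trans_le ht.1, lt_of_le_of_lt ht.2 hb⟩

end Pool.Agent.Results.MP_48b3e2_nt.PolylogarithmsAndHurwitzZeta
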